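import Pool.Agent.Helper84.LE.BGR
import Pool.Agent.Helper84.LE.M_LastE
import Pool.Agent.Helper84.LE.M_LastU
import Pool.Agent.Helper84.LE.M_PivT
import Pool.Agent.Helper69.LT.St

/-! Project LT, module PI: the pathwise identity of the expansion (cluster weights). -/

set_option autoImplicit false
set_option linter.unusedSectionVars false

open scoped BigOperators ENNReal
open Pool.LE Pool.NL

namespace Pool.LT

namespace PIM

variable {V : Type} [DecidableEq V] {R : Type} [CommRing R]

theorem mA_of_mem {L : Finset V} {r : V → R} {ω : Finset (Sym2 V)} {A : Set V} {x y : V}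
    (h : x ∈ A) : mA L r ω A x y = 0 := by
  unfold mA
  rw [if_pos h]

theorem mA_of_not_mem {L : Finset V} {r : V → R} {ω : Finset (Sym2 V)} {A : Set V} {x y : V}
    (h : x ∉ A) : mA L r ω A x y = mT L r (rst ω A) x y := by
  unfold mA
  rw [if_neg h]

theorem mT_eq_zero {L : Finset V} {r : V → R} {ω : Finset (Sym2 V)} {x y : V}
    (h : ¬ con ω x y) : mT L r ω x y = 0 := by
  unfold mT
  rw [if_neg h]

/-- a nonzero restricted weight comes from a connection which avoids `A` -/
theorem con_rst_of_mA_ne_zero {L : Finset V} {r : V → R} {ω : Finset (Sym2 V)} {A : Set V} {x y : V}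
    (h : mA L r ω A x y ≠ 0) : x ∉ A ∧ con (rst ω A) x y := by
  have hx : x ∉ A := fun hx => h (mA_of_mem hx)
  refine ⟨hx, ?_⟩
  by_contra hc
  exact h (by rw [mA_of_not_mem hx, mT_eq_zero hc])

/-- a nonzero summand needs a pivotal edge -/
theorem piv_of_ne (hVan : SVan) {L : Finset V} {r : V → R} {ω : Finset (Sym2 V)} {A : Set V}
    {v x u b : V} (hm : s(u, b) ∈ ω) (h1 : vA L r (ω.erase s(u, b)) A v u ≠ 0)
    (h2 : mA L r ω (cl ω u b v) b x ≠ 0) : piv ω v x u b := by
  obtain ⟨hb, hc⟩ := con_rst_of_mA_ne_zero h2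
  have hb' : ¬ con (ω.erase s(u, b)) v b := hb
  have hu : con (ω.erase s(u, b)) v u := by
    by_contra h
    exact h1 ((hVan V R L r (ω.erase s(u, b)) A v u).1 h).2.2
  have hbx : con (ω.erase s(u, b)) b x := by
    refine con_mono ?_ hc
    intro e he
    rw [mem_rst] at he
    rw [Finset.mem_erase]
    refine ⟨?_, he.1⟩
    rintro rfl
    exact he.2 u (Sym2.mem_mk_left u b) hu
  refine ⟨hm, hu, hbx, ?_⟩
  intro h
  exact hb' (con_trans h (con_symm hbx))

/-- a restricted weight whose forbidden set is not touched -/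
theorem mA_avoid (hVan : SVan) {L : Finset V} {r : V → R} {ω : Finset (Sym2 V)} {S : Set V} {b x : V}
    (h : ∀ y, con ω b y → y ∉ S) : mA L r ω S b x = mT L r ω b x :=
  (hVan V R L r ω S b x).2.2.2 (fun s hs hc => h s hc hs)

end PIM

open PIM

theorem hPI (hVan : SVan) (hBR : SBR) (hLoc : SLoc) : SPI := by
  classical
  intro V _ R _ L r ω A v
  -- strong induction on the number of edges
  induction hn : ω.card using Nat.strong_induction_on generalizing ω with
  | _ n ih =>
  intro x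
  by_cases hcon : con ω v x
  swap
  · -- not connected: everything vanishes
    obtain ⟨h1, h2, h3⟩ := (hVan V R L r ω A v x).1 hcon
    rw [h1, h2, h3, sub_zero, zero_add]
    symm
    apply Finset.sum_eq_zero
    rintro ⟨u, b⟩ hub
    by_contra h
    have h4 : vA L r (ω.erase s(u, b)) A v u ≠ 0 := fun h0 => h (by simp only [h0, zero_mul])
    have h5 : mA L r ω (cl ω u b v) b x ≠ 0 := fun h0 => h (by simp only [h0, mul_zero])
    exact hcon (piv_con (piv_of_ne hVan (mem_drt.1 hub) h4 h5))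
  by_cases hdbl : dbl ω v x
  · -- no pivotal edge
    have hnp : ∀ c b, ¬ piv ω v x c b := fun c b => (hLastU V ω v x).1 c b hdbl
    have h3 : vA L r ω A v x = mT L r ω v x - mA L r ω A v x := by
      unfold vA
      rw [if_pos hdbl]
      rw [Finset.sum_eq_zero, add_zero]
      intro cb _
      rw [if_neg]
      rintro ⟨hp, -⟩
      exact hnp _ _ hp
    rw [h3]
    symm
    rw [add_eq_left]
    apply Finset.sum_eq_zero
    rintro ⟨u, b⟩ hub
    by_contra h
    have h4 : vA L r (ω.erase s(u, b)) A v u ≠ 0 := fun h0 => h (by simp only [h0, zero_mul])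
    have h5 : mA L r ω (cl ω u b v) b x ≠ 0 := fun h0 => h (by simp only [h0, mul_zero])
    exact hnp u b (piv_of_ne hVan (mem_drt.1 hub) h4 h5)
  -- the last pivotal edge
  obtain ⟨c0, b0, hp0, hd0⟩ := hLastE V ω v x hcon hdbl
  obtain ⟨hm0, hvc0, hb0x, hnvx⟩ := hp0
  have hp0 : piv ω v x c0 b0 := ⟨hm0, hvc0, hb0x, hnvx⟩
  have hnvb0 : ¬ con (ω.erase s(c0, b0)) v b0 := fun h => hnvx (con_trans h hb0x)
  have hnb0c0 : ¬ con (ω.erase s(c0, b0)) b0 c0 := fun h =>
    hnvb0 (con_trans hvc0 (con_symm h))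
  have hwx : vA L r ω A v x = mA L r (ω.erase s(c0, b0)) A v c0 *
      (mT L r (ω.erase s(c0, b0)) b0 x - mA L r (ω.erase s(c0, b0)) A b0 x) := by
    unfold vA
    rw [if_neg hdbl, zero_add]
    rw [Finset.sum_eq_single (c0, b0)]
    · rw [if_pos ⟨hp0, hd0⟩]
    · rintro ⟨c, b⟩ _ hne
      rw [if_neg]
      rintro ⟨h1, h2⟩
      obtain ⟨h3, h4⟩ := (hLastU V ω v x).2 c b c0 b0 h1 h2 hp0 hd0
      exact hne (by rw [h3, h4])
    · intro h
      exact absurd (mem_drt.2 hm0) h
  have hbr := hBR V R L r ω v x c0 b0 hp0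
  have hIH := ih (ω.erase s(c0, b0)).card
    (by rw [← hn]; exact Finset.card_erase_lt_of_mem hm0) (ω.erase s(c0, b0)) rfl c0
  -- the first summand
  have hfirst : mA L r ω (cl ω c0 b0 v) b0 x = mT L r (ω.erase s(c0, b0)) b0 x := by
    have hb0S : b0 ∉ cl ω c0 b0 v := hnvb0
    have e1 : rst ω (cl ω c0 b0 v) = rst (ω.erase s(c0, b0)) (cl ω c0 b0 v) := by
      rw [rst_erase, Finset.erase_eq_of_notMem]
      intro h
      exact (mem_rst.1 h).2 c0 (Sym2.mem_mk_left c0 b0) hvc0
    rw [mA_of_not_mem hb0S, e1, ← mA_of_not_mem hb0S]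
    apply mA_avoid hVan
    intro y hy hyS
    exact hnvb0 (con_trans (hyS : con (ω.erase s(c0, b0)) v y) (con_symm hy))
  -- the other summands
  have hterm : ∀ ub ∈ drt (ω.erase s(c0, b0)),
      vA L r (ω.erase s(ub.1, ub.2)) A v ub.1 * mA L r ω (cl ω ub.1 ub.2 v) ub.2 x =
        (vA L r ((ω.erase s(c0, b0)).erase s(ub.1, ub.2)) A v ub.1 *
          mA L r (ω.erase s(c0, b0)) (cl (ω.erase s(c0, b0)) ub.1 ub.2 v) ub.2 c0) *
            mT L r (ω.erase s(c0, b0)) b0 x := by
    rintro ⟨u, b⟩ hub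
    have hub' := mem_drt.1 hub
    have hubω : s(u, b) ∈ ω := Finset.mem_of_mem_erase hub'
    have hne : (u, b) ≠ (c0, b0) := by
      intro h
      rw [Prod.mk.injEq] at h
      rw [h.1, h.2] at hub'
      exact Finset.notMem_erase _ _ hub'
    obtain ⟨hiff, himp⟩ := hPivT V ω v x c0 b0 u b hp0 hd0 hne
    show vA L r (ω.erase s(u, b)) A v u * mA L r ω (cl ω u b v) b x =
        (vA L r ((ω.erase s(c0, b0)).erase s(u, b)) A v u *
          mA L r (ω.erase s(c0, b0)) (cl (ω.erase s(c0, b0)) u b v) b c0) *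
            mT L r (ω.erase s(c0, b0)) b0 x
    by_cases hpu : piv ω v x u b
    · have hpu' := hiff.1 hpu
      obtain ⟨hnvc0, hbc0, hmem0, hcl⟩ := himp hpu
      obtain ⟨-, hvu, hbx, hnvx'⟩ := hpu
      obtain ⟨-, hvu', hbc0', -⟩ := hpu'
      have hvu2 : con (ω.erase s(c0, b0)) v u := con_mono (Finset.erase_subset _ _) hvu'
      have hbc2 : con (ω.erase s(c0, b0)) b c0 := con_mono (Finset.erase_subset _ _) hbc0'
      -- locality of the first factor
      have hwu : vA L r (ω.erase s(u, b)) A v u =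
          vA L r ((ω.erase s(c0, b0)).erase s(u, b)) A v u := by
        refine (hLoc V R L r (ω.erase s(u, b)) ((ω.erase s(c0, b0)).erase s(u, b)) v ?_ A u).2.2
        rintro e ⟨y, hy, hvy⟩
        rw [Finset.mem_erase, Finset.mem_erase, Finset.mem_erase]
        refine ⟨fun h => ⟨h.1, ?_, h.2⟩, fun h => ⟨h.1, h.2.2⟩⟩
        rintro rfl
        rw [Sym2.mem_iff] at hy
        rcases hy with rfl | rfl
        · exact hnvc0 hvy
        · exact hnvc0 (con_trans hvy (con_symm (con_of_mem hmem0)))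
      have hbS : ∀ y, con (ω.erase s(c0, b0)) b0 y → y ∉ cl ω u b v := by
        intro y hy hyS
        rw [← hcl] at hyS
        have h1 : con ((ω.erase s(c0, b0)).erase s(u, b)) v y := hyS
        have h2 : con (ω.erase s(c0, b0)) v y := con_mono (Finset.erase_subset _ _) h1
        exact hnvb0 (con_trans h2 (con_symm hy))
      have hnb : ¬ con (ω.erase s(c0, b0)) b x := by
        intro h
        exact hnb0c0 (con_trans hb0x (con_trans (con_symm h) hbc2))
      have hpr : piv ω b x c0 b0 := ⟨hm0, hbc2, hb0x, hnb⟩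
      rw [hcl, ← hwu, (hBR V R L r ω b x c0 b0 hpr).2 (cl ω u b v), mA_avoid hVan hbS, mul_assoc]
    · have hl : vA L r (ω.erase s(u, b)) A v u * mA L r ω (cl ω u b v) b x = 0 := by
        by_contra h
        have h4 : vA L r (ω.erase s(u, b)) A v u ≠ 0 := fun h0 => h (by simp only [h0, zero_mul])
        have h5 : mA L r ω (cl ω u b v) b x ≠ 0 := fun h0 => h (by simp only [h0, mul_zero])
        exact hpu (piv_of_ne hVan hubω h4 h5)
      have hr : vA L r ((ω.erase s(c0, b0)).erase s(u, b)) A v u *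
          mA L r (ω.erase s(c0, b0)) (cl (ω.erase s(c0, b0)) u b v) b c0 = 0 := by
        by_contra h
        have h4 : vA L r ((ω.erase s(c0, b0)).erase s(u, b)) A v u ≠ 0 :=
          fun h0 => h (by simp only [h0, zero_mul])
        have h5 : mA L r (ω.erase s(c0, b0)) (cl (ω.erase s(c0, b0)) u b v) b c0 ≠ 0 :=
          fun h0 => h (by simp only [h0, mul_zero])
        exact hpu (hiff.2 (piv_of_ne hVan hub' h4 h5))
      rw [hl, hr, zero_mul]
  -- split the sum
  have hsum : ∑ ub ∈ drt ω, vA L r (ω.erase s(ub.1, ub.2)) A v ub.1 *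
      mA L r ω (cl ω ub.1 ub.2 v) ub.2 x =
      vA L r (ω.erase s(c0, b0)) A v c0 * mT L r (ω.erase s(c0, b0)) b0 x +
        ∑ ub ∈ drt (ω.erase s(c0, b0)),
          vA L r (ω.erase s(ub.1, ub.2)) A v ub.1 * mA L r ω (cl ω ub.1 ub.2 v) ub.2 x := by
    rw [← Finset.add_sum_erase (drt ω) _ (mem_drt.2 hm0)]
    show vA L r (ω.erase s(c0, b0)) A v c0 * mA L r ω (cl ω c0 b0 v) b0 x + _ = _
    rw [hfirst]
    congr 1
    symm
    apply Finset.sum_subset
    · rintro ⟨u, b⟩ hub
      have hub' := mem_drt.1 hub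
      rw [Finset.mem_erase]
      refine ⟨?_, mem_drt.2 (Finset.mem_of_mem_erase hub')⟩
      intro h
      rw [Prod.mk.injEq] at h
      rw [h.1, h.2] at hub'
      exact Finset.notMem_erase _ _ hub'
    · rintro ⟨u, b⟩ hub hnot
      rw [Finset.mem_erase] at hub
      have hubω : s(u, b) ∈ ω := mem_drt.1 hub.2
      have heq : s(u, b) = s(c0, b0) := by
        by_contra h
        exact hnot (mem_drt.2 (Finset.mem_erase.2 ⟨h, hubω⟩))
      rw [Sym2.eq_iff] at heq
      rcases heq with ⟨h1, h2⟩ | ⟨h1, h2⟩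
      · exact absurd (by rw [h1, h2]) hub.1
      · by_contra h
        have h4 : vA L r (ω.erase s(u, b)) A v u ≠ 0 := fun h0 => h (by simp only [h0, zero_mul])
        have h5 : mA L r ω (cl ω u b v) b x ≠ 0 := fun h0 => h (by simp only [h0, mul_zero])
        obtain ⟨-, h6, -, -⟩ := piv_of_ne hVan hubω h4 h5
        rw [h1, h2, Sym2.eq_swap] at h6
        exact hnvb0 h6
  rw [hsum, Finset.sum_congr rfl hterm, ← Finset.sum_mul, hwx, hbr.1, hbr.2 A]
  rw [sub_eq_iff_eq_add] at hIH
  rw [hIH]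
  ring

end Pool.LT
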